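import Pool.Agent.H31.CF.U3

/-!
# Sums over the vectors with the kernel
-/

set_option autoImplicit false

open MeasureTheory Set Filter
open scoped Real Matrix MatrixGroups

namespace Pool.Agent.H74.CFU

open Pool.Agent.H31.CN Pool.Agent.H91.CF Pool.Agent.H31.CF

theorem rd_dvd (f : ℕ) : rd f ∣ f := Nat.prod_primeFactors_dvd f

theorem rd_pos (f : ℕ) : 0 < rd f :=
  Finset.prod_pos fun _ hp => (Nat.prime_of_mem_primeFactors hp).pos

theorem rd_primeFactors (f : ℕ) : (rd f).primeFactors = f.primeFactors :=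
  Nat.primeFactors_prod fun _ hp => Nat.prime_of_mem_primeFactors hp

theorem rd_squarefree (f : ℕ) : Squarefree (rd f) := by
  unfold rd
  refine Finset.squarefree_prod_of_pairwise_isCoprime (fun _ hp _ hq hpq => ?_)
    fun _ hp => (Nat.prime_of_mem_primeFactors hp).squarefree
  simp only [← Nat.coprime_iff_isRelPrime]
  exact (Nat.coprime_primes (Nat.prime_of_mem_primeFactors hp)
    (Nat.prime_of_mem_primeFactors hq)).2 hpq

theorem rd_fact {f p : ℕ} (hf : 1 ≤ f) (hp : p.Prime) (hpf : p ∣ f) : (rd f).factorization p = 1 := by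
  have h1 := (rd_squarefree f).natFactorization_le_one p
  have h2 : p ∣ rd f := by
    have : p ∈ (rd f).primeFactors := by
      rw [rd_primeFactors]
      exact Nat.mem_primeFactors.2 ⟨hp, hpf, by omega⟩
    exact Nat.dvd_of_mem_primeFactors this
  have h3 := (hp.dvd_iff_one_le_factorization (rd_pos f).ne').1 h2
  omega

theorem f1_fact {f p : ℕ} (hf : 1 ≤ f) (hp : p.Prime) (hpf : p ∣ f) :
    (f1 f).factorization p = f.factorization p - 1 := by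
  unfold f1
  rw [Nat.factorization_div (rd_dvd f), Finsupp.tsub_apply, rd_fact hf hp hpf]

theorem f1_pos {f : ℕ} (hf : 1 ≤ f) : 0 < f1 f :=
  Nat.div_pos (Nat.le_of_dvd (by omega) (rd_dvd f)) (rd_pos f)

theorem f1_dvd (f : ℕ) : f1 f ∣ f := Nat.div_dvd_of_dvd (rd_dvd f)

/-- powers of `p` and the number `f1 f` -/
theorem f1_split {f p : ℕ} (hf : 1 ≤ f) (hp : p.Prime) (hpf : p ∣ f) :
    ∃ u : ℕ, f1 f = p ^ (f.factorization p - 1) * u ∧ ¬ p ∣ u := by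
  refine ⟨f1 f / p ^ (f1 f).factorization p, ?_, ?_⟩
  · rw [← f1_fact hf hp hpf, Nat.mul_div_cancel' (Nat.ordProj_dvd _ _)]
  · exact Nat.not_dvd_ordCompl hp (f1_pos hf).ne'

theorem f1_dvd_of {f : ℕ} (hf : 1 ≤ f) {n : ℕ}
    (h : ∀ p ∈ f.primeFactors, p ^ (f.factorization p - 1) ∣ n) : f1 f ∣ n := by
  rw [Nat.dvd_iff_prime_pow_dvd_dvd]
  intro p m hp hm
  by_cases h0 : m = 0
  · rw [h0]; simp
  · have h1 : p ∣ f1 f := (dvd_pow_self p h0).trans hm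
    have h2 : p ∣ f := h1.trans (f1_dvd f)
    have h3 := h p (Nat.mem_primeFactors.2 ⟨hp, h2, by omega⟩)
    have h4 := (hp.pow_dvd_iff_le_factorization (f1_pos hf).ne').1 hm
    rw [f1_fact hf hp h2] at h4
    exact (pow_dvd_pow p h4).trans h3

theorem kern_zero {f : ℕ} (hf : 1 ≤ f) (Q : QF) (v : ℤ × ℤ) (hv : ¬ (f1 f : ℤ) ∣ v.2) :
    kern f Q (1, 0) v = 0 := by
  have h1 : ∃ p ∈ f.primeFactors, ¬ p ^ (f.factorization p - 1) ∣ v.2.natAbs := by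
    by_contra hcon
    push Not at hcon
    apply hv
    exact Int.natCast_dvd.2 (f1_dvd_of hf hcon)
  obtain ⟨p, hp, h2⟩ := h1
  apply Finset.prod_eq_zero hp
  have h3 : ¬ (p : ℤ) ^ (f.factorization p - 1) ∣ v.2 := by
    intro h4
    apply h2
    have h5 : ((p ^ (f.factorization p - 1) : ℕ) : ℤ) ∣ v.2 := by
      push_cast
      exact h4
    exact Int.natCast_dvd.1 h5
  have h4 : ¬ (p : ℤ) ^ (f.factorization p) ∣ v.2 := fun h5 =>
    h3 ((pow_dvd_pow _ (Nat.sub_le _ _)).trans h5)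
  have hd : dtm (1, 0) v = v.2 := by simp [dtm]
  unfold kp
  rw [hd, if_neg h3, if_neg h4]
  simp

theorem kp_eq (hNPQ : T_NPQ) {f p : ℕ} (hf : 1 ≤ f) (hp : p.Prime) (hpf : p ∣ f) (Q : QF)
    (hQ : ¬ (p : ℤ) ∣ Q.1) (x y : ℤ) :
    kp f p Q (1, 0) (x, (f1 f : ℤ) * y) =
      if (p : ℤ) ∣ Q.1 * x ^ 2 + ((f1 f : ℤ) * Q.2.1) * x * y + ((f1 f : ℤ) ^ 2 * Q.2.2) * y ^ 2
      then 0 else (if (p : ℤ) ∣ y then (1 : ℝ) else 0) -
        1 / np p Q.1 ((f1 f : ℤ) * Q.2.1) ((f1 f : ℤ) ^ 2 * Q.2.2) := by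
  have hn := (hNPQ f p hf hp hpf).1 Q hQ
  have hv : val Q (x, (f1 f : ℤ) * y) =
      Q.1 * x ^ 2 + ((f1 f : ℤ) * Q.2.1) * x * y + ((f1 f : ℤ) ^ 2 * Q.2.2) * y ^ 2 := by
    simp only [val]
    ring
  have hv1 : val Q (1, 0) = Q.1 := by simp [val]
  have hd : dtm (1, 0) (x, (f1 f : ℤ) * y) = (f1 f : ℤ) * y := by simp [dtm]
  obtain ⟨u, hu, hpu⟩ := f1_split hf hp hpf
  have hk : f.factorization p = f.factorization p - 1 + 1 := by
    have := (hp.dvd_iff_one_le_factorization (by omega : f ≠ 0)).1 hpf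
    omega
  have hp0 : (p : ℤ) ≠ 0 := by exact_mod_cast hp.pos.ne'
  have h1 : (p : ℤ) ^ (f.factorization p - 1) ∣ (f1 f : ℤ) * y := by
    rw [hu]
    push_cast
    exact ⟨(u : ℤ) * y, by ring⟩
  have h2 : (p : ℤ) ^ (f.factorization p) ∣ (f1 f : ℤ) * y ↔ (p : ℤ) ∣ y := by
    have h3 : (f1 f : ℤ) * y = (p : ℤ) ^ (f.factorization p - 1) * ((u : ℤ) * y) := by
      rw [hu]
      push_cast
      ring
    rw [h3]
    nth_rewrite 1 [hk]
    rw [pow_succ, mul_dvd_mul_iff_left (pow_ne_zero _ hp0)]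
    constructor
    · intro h4
      rcases (Nat.prime_iff_prime_int.1 hp).dvd_or_dvd h4 with h5 | h5
      · exact absurd (Int.natCast_dvd_natCast.1 h5) hpu
      · exact h5
    · exact fun h4 => h4.mul_left _
  unfold kp
  rw [hd, hv, hv1, if_pos h1]
  have hn' : (npQ f p Q : ℝ) = (np p Q.1 ((f1 f : ℤ) * Q.2.1) ((f1 f : ℤ) ^ 2 * Q.2.2) : ℝ) := by
    rw [hn]
    push_cast
    rfl
  rw [hn']
  by_cases h3 : (p : ℤ) ∣ Q.1 * x ^ 2 + ((f1 f : ℤ) * Q.2.1) * x * y +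
      ((f1 f : ℤ) ^ 2 * Q.2.2) * y ^ 2
  · rw [if_pos (Or.inr h3), if_pos h3]
  · rw [if_neg (by tauto), if_neg h3]
    by_cases h4 : (p : ℤ) ∣ y
    · rw [if_pos (h2.2 h4), if_pos h4]
    · rw [if_neg (fun h => h4 (h2.1 h)), if_neg h4]

/-- the kernel on the range of the injective map -/
theorem kern_eq (hKPR : T_KPR) (hNPQ : T_NPQ) {f : ℕ} (hf : 1 ≤ f) (Q : QF)
    (hQ : Int.gcd Q.1 f = 1) (x y : ℤ) :
    kern f Q (1, 0) (x, (f1 f : ℤ) * y) = ∑ d ∈ (rd f).divisors,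
      cf (rd f) d Q.1 ((f1 f : ℤ) * Q.2.1) ((f1 f : ℤ) ^ 2 * Q.2.2) *
      ∑ j ∈ (Finset.range d).filter (fun j : ℕ => IsCoprime (Q.1 * (j : ℤ) ^ 2 +
            (f1 f : ℤ) * Q.2.1 * j + (f1 f : ℤ) ^ 2 * Q.2.2) (d : ℤ)),
        (if ((rd f / d : ℕ) : ℤ) ∣ y ∧ (d : ℤ) ∣ x - j * y then (1 : ℝ) else 0) := by
  have hg : Int.gcd Q.1 (rd f) = 1 := by
    have h1 : Int.gcd Q.1 (rd f) ∣ Int.gcd Q.1 f := by
      apply Int.dvd_gcd
      · exact Int.gcd_dvd_left _ _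
      · exact (Int.gcd_dvd_right _ _).trans (Int.natCast_dvd_natCast.2 (rd_dvd f))
    rw [hQ] at h1
    exact Nat.dvd_one.1 h1
  have h1 := hKPR (rd f) Q.1 ((f1 f : ℤ) * Q.2.1) ((f1 f : ℤ) ^ 2 * Q.2.2) x y (rd_squarefree f) hg
  rw [rd_primeFactors] at h1
  have h2 : kern f Q (1, 0) (x, (f1 f : ℤ) * y) = ∏ p ∈ f.primeFactors,
      (if (p : ℤ) ∣ Q.1 * x ^ 2 + ((f1 f : ℤ) * Q.2.1) * x * y + ((f1 f : ℤ) ^ 2 * Q.2.2) * y ^ 2
      then 0 else (if (p : ℤ) ∣ y then (1 : ℝ) else 0) -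
        1 / np p Q.1 ((f1 f : ℤ) * Q.2.1) ((f1 f : ℤ) ^ 2 * Q.2.2)) := by
    unfold kern
    refine Finset.prod_congr rfl fun p hp => ?_
    have hp1 := Nat.prime_of_mem_primeFactors hp
    have hp2 := Nat.dvd_of_mem_primeFactors hp
    apply kp_eq hNPQ hf hp1 hp2 Q
    intro h3
    have h4 : p ∣ Int.gcd Q.1 f := Int.natCast_dvd_natCast.1
      (Int.dvd_coe_gcd h3 (Int.natCast_dvd_natCast.2 hp2))
    rw [hQ] at h4
    exact hp1.one_lt.ne' (Nat.dvd_one.1 h4)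
  rw [h2, h1]
  refine Finset.sum_congr rfl fun d _ => ?_
  congr 1
  by_cases hy : ((rd f / d : ℕ) : ℤ) ∣ y
  · rw [if_pos hy]
    simp only [hy, true_and]
    rw [Finset.sum_boole, Finset.filter_filter]
  · rw [if_neg hy]
    simp only [hy, false_and, if_false, Finset.sum_const_zero]

/-- the sum over a sublattice -/
theorem sum_sub (Φ : ℤ × ℤ → ℝ) (F g d j : ℕ) (hd : d ∣ g) (hg : 0 < g) :
    ∑' w : ℤ × ℤ, Φ (w.1, (F : ℤ) * w.2) *
      (if ((g / d : ℕ) : ℤ) ∣ w.2 ∧ (d : ℤ) ∣ w.1 - j * w.2 then (1 : ℝ) else 0) =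
    ∑' v : ℤ × ℤ, Φ (d * v.1 + j * (g / d : ℕ) * v.2, (F : ℤ) * (g / d : ℕ) * v.2) := by
  have hd0 : (d : ℤ) ≠ 0 := by
    have := Nat.pos_of_dvd_of_pos hd hg
    omega
  have hm0 : ((g / d : ℕ) : ℤ) ≠ 0 := by
    have := Nat.div_pos (Nat.le_of_dvd hg hd) (Nat.pos_of_dvd_of_pos hd hg)
    omega
  set m : ℤ := ((g / d : ℕ) : ℤ) with hm
  have hinj : Function.Injective (fun v : ℤ × ℤ => ((d : ℤ) * v.1 + j * m * v.2, m * v.2)) := by
    rintro ⟨a, b⟩ ⟨a', b'⟩ h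
    simp only [Prod.mk.injEq] at h
    obtain ⟨h1, h2⟩ := h
    have h3 : b = b' := mul_left_cancel₀ hm0 h2
    subst h3
    have h4 : (d : ℤ) * a = d * a' := by linarith
    rw [mul_left_cancel₀ hd0 h4]
  rw [← hinj.tsum_eq]
  · refine tsum_congr fun v => ?_
    simp only
    rw [if_pos]
    · rw [mul_one]
      congr 2
      ring
    · exact ⟨dvd_mul_right _ _, ⟨v.1, by ring⟩⟩
  · intro w hw
    have h1 : m ∣ w.2 ∧ (d : ℤ) ∣ w.1 - j * w.2 := by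
      by_contra h2
      apply hw
      simp only
      rw [if_neg h2, mul_zero]
    obtain ⟨⟨b, hb⟩, a, ha⟩ := h1
    refine ⟨(a, b), ?_⟩
    apply Prod.ext
    · show (d : ℤ) * a + j * m * b = w.1
      rw [← ha, hb]
      ring
    · exact hb.symm

theorem pf_KSM (hKPR : T_KPR) (hNPQ : T_NPQ) : T_KSM := by
  intro f Q Φ hf hgcd hsum
  have hF0 : (f1 f : ℤ) ≠ 0 := by
    have := f1_pos hf
    omega
  have hinj : Function.Injective (fun w : ℤ × ℤ => (w.1, (f1 f : ℤ) * w.2)) := by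
    rintro ⟨a, b⟩ ⟨a', b'⟩ h
    simp only [Prod.mk.injEq] at h
    rw [h.1, mul_left_cancel₀ hF0 h.2]
  have h1 : ∑' v, Φ v * kern f Q (1, 0) v =
      ∑' w : ℤ × ℤ, Φ (w.1, (f1 f : ℤ) * w.2) * kern f Q (1, 0) (w.1, (f1 f : ℤ) * w.2) := by
    rw [← hinj.tsum_eq]
    intro v hv
    have h2 : (f1 f : ℤ) ∣ v.2 := by
      by_contra h3
      apply hv
      show Φ v * kern f Q (1, 0) v = 0
      rw [kern_zero hf Q v h3, mul_zero]
    obtain ⟨b, hb⟩ := h2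
    exact ⟨(v.1, b), Prod.ext rfl hb.symm⟩
  have hs : Summable fun w : ℤ × ℤ => |Φ (w.1, (f1 f : ℤ) * w.2)| := hsum.comp_injective hinj
  have hsf : ∀ (c : ℤ × ℤ → ℝ), (∀ w, |c w| ≤ 1) →
      Summable fun w : ℤ × ℤ => Φ (w.1, (f1 f : ℤ) * w.2) * c w := by
    intro c hc
    apply Summable.of_norm_bounded hs
    intro w
    rw [Real.norm_eq_abs, abs_mul]
    exact mul_le_of_le_one_right (abs_nonneg _) (hc w)
  have h2 : ∀ w : ℤ × ℤ, Φ (w.1, (f1 f : ℤ) * w.2) *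
      kern f Q (1, 0) (w.1, (f1 f : ℤ) * w.2) = ∑ d ∈ (rd f).divisors,
      cf (rd f) d Q.1 ((f1 f : ℤ) * Q.2.1) ((f1 f : ℤ) ^ 2 * Q.2.2) *
      ∑ j ∈ (Finset.range d).filter (fun j : ℕ => IsCoprime (Q.1 * (j : ℤ) ^ 2 +
            (f1 f : ℤ) * Q.2.1 * j + (f1 f : ℤ) ^ 2 * Q.2.2) (d : ℤ)),
        Φ (w.1, (f1 f : ℤ) * w.2) *
        (if ((rd f / d : ℕ) : ℤ) ∣ w.2 ∧ (d : ℤ) ∣ w.1 - j * w.2 then (1 : ℝ) else 0) := by
    intro w
    rw [kern_eq hKPR hNPQ hf Q hgcd, Finset.mul_sum]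
    refine Finset.sum_congr rfl fun d _ => ?_
    rw [← Finset.mul_sum]
    ring
  have hbd : ∀ (d j : ℕ) (w : ℤ × ℤ), |(if ((rd f / d : ℕ) : ℤ) ∣ w.2 ∧
      (d : ℤ) ∣ w.1 - j * w.2 then (1 : ℝ) else 0)| ≤ 1 := by
    intro d j w
    split_ifs <;> simp
  rw [h1]
  simp only [h2]
  rw [Summable.tsum_finsetSum]
  · refine Finset.sum_congr rfl fun d hd => ?_
    rw [tsum_mul_left, Summable.tsum_finsetSum (fun j _ => hsf _ (hbd d j))]
    congr 1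
    refine Finset.sum_congr rfl fun j _ => ?_
    exact sum_sub Φ (f1 f) (rd f) d j (Nat.dvd_of_mem_divisors hd) (rd_pos f)
  · intro d _
    exact (summable_sum fun j _ => hsf _ (hbd d j)).mul_left _

end Pool.Agent.H74.CFU
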